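import Pool.Agent.Results.MP_12adaf_nt.AbelianNormForms
import Pool.Agent.U513.AP.LogInt

/-!
# Norm forms of abelian fields: approximation for all constants near the numerators and denominators of Diophantine approximations

Let `α ∈ ℝ ^ d` and consider all its approximations `(q, u_1, …, u_d)` with `|q α_i - γ_i - u_i| ≤ q ^ (-τ)`; for `d = 1`, `γ = 0`,
`τ = 1` these contain the denominators and numerators of all the convergents of the continued fraction of `α`, for `τ = 1 / d` all
the best simultaneous approximations, and for larger `τ` the very good approximations of the very well approximable `α`, which form a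
set of dimension `s = (d + 1) / (1 + τ) < d` and of infinite Hausdorff measure in this dimension (Jarník). We show that for all
`α` outside of a set of Hausdorff measure ZERO in the dimension `s` the following holds for all integral polynomials `f` of degree at
least two in any number of variables, all nonzero integers `cᵢ` and the admissible subfields `Kᵢ` of a cyclotomic field: for ALL
integers `k ≠ 0` at a distance of at most `(log q) ^ W` from `g_0 + g q + h_1 u_1 + ⋯ + h_d u_d`, for every integral affine form with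
`(g, h) ≠ 0` and all these approximations with large `q`, which satisfy the necessary condition at the real place, the rational points
of the variety `N_{Kᵢ/ℚ}(zᵢ) = cᵢ (f(t) + k) ≠ 0` approximate the coordinates `t` of its local points at the primes of a finite set `T`.

Proof. The theorem `AbelianNormForms` of this page in the starting library bounds the number of the exceptional `|k| ≤ X` by
`X / (log X) ^ U` for all `U`. The integral vectors `(q, u)` with `q ≈ X` and a value of the form near an exceptional number are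
counted, and the sets of the `α` approximated by them, cubes of side `2 X ^ (- 1 - τ)`, are used as the covers in the definition of
the Hausdorff measure (`U513/AP/Log`, `LogInt`). The numbers `q`, `u` have the density zero for a given `α`, so that the bound for the
number of exceptions alone does not say anything about them.
-/

set_option autoImplicit false

open Finset Filter MeasureTheory

namespace Pool.Agent.Results.MP_12adaf_nt.Approximations

open MvPolynomial
open Pool.Agent.Results.MP_12adaf_nt.AbelianNormForms (Admissible Approximation RealCond)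

variable {L : Type} [Field L] [NumberField L] {r : ℕ}

/-- `(q, u)` is an approximation of `α` of exponent `τ` and shift `γ`: `|q α_i - γ_i - u_i| ≤ q ^ (-τ)` for all `i`. -/
def Approx {d : ℕ} (τ : ℝ) (γ α : Fin d → ℝ) (q : ℕ) (u : Fin d → ℤ) : Prop :=
  ∀ i, |(q : ℝ) * α i - γ i - u i| ≤ (q : ℝ) ^ (-τ)

/-- All the integers `k ≠ 0` within `(log q) ^ W` of the values of the integral affine forms `g₀ + g q + ∑ h_i u_i`, `(g, h) ≠ 0`, at
all the approximations `(q, u)` of `α` of exponent `τ` and shift `γ` with large `q` have the property `G`, for every `W`. -/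
def Near {d : ℕ} (τ : ℝ) (γ α : Fin d → ℝ) (G : ℤ → Prop) : Prop :=
  ∀ (W : ℕ) (g₀ g : ℤ) (h : Fin d → ℤ), ¬ (g = 0 ∧ h = 0) → ∀ᶠ q : ℕ in atTop, ∀ u : Fin d → ℤ, Approx τ γ α q u →
    ∀ k : ℤ, k ≠ 0 → |(k : ℝ) - (g₀ + g * q + ∑ i, h i * u i : ℤ)| ≤ Real.log q ^ W → G k

/-- the data: a polynomial, the `cᵢ`, the primes and the level -/
abbrev Data (r : ℕ) : Type := Σ s : ℕ, MvPolynomial (Fin s) ℤ × (Fin r → ℤ) × Finset Nat.Primes × ℕ

lemma countable_data (r : ℕ) : Countable (Data r) := by
  have h : ∀ s : ℕ, Countable (MvPolynomial (Fin s) ℤ) := fun s => by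
    rw [← Cardinal.mk_le_aleph0_iff]
    refine (MvPolynomial.cardinalMk_le_max).trans ?_
    simp
  infer_instance

/-- **Norm forms of abelian fields near the approximations of almost all points.** Let `L` be the `m`-th cyclotomic field and `Kᵢ`
admissible subfields. There are finite sets `T₀ s f c` of primes such that for all `d`, `τ ≥ 0` and `γ ∈ ℝ ^ d` there is a set `E` of
Hausdorff measure zero in the dimension `(d + 1) / (1 + τ)` (of Lebesgue measure zero if `d τ ≥ 1`), such that for all `α ∉ E`, all
integral polynomials `f` in `s` variables of degree at least `2`, all nonzero integers `cᵢ`, all finite sets `T ⊇ T₀ s f c` of primes and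
all `N`, ALL the integers `k ≠ 0` near the integral affine forms at the approximations of `α` (`Near`) with the condition at the
real place (`RealCond`) have `Approximation K f c T N k`. -/
theorem result (m : ℕ) [NeZero m] [IsCyclotomicExtension {m} ℚ L] (K : Fin r → IntermediateField ℚ L) (hK : ∀ i, Admissible (K i)) :
    ∃ T₀ : (s : ℕ) → MvPolynomial (Fin s) ℤ → (Fin r → ℤ) → Finset Nat.Primes,
      ∀ (d : ℕ) (τ : ℝ) (γ : Fin d → ℝ), 0 ≤ τ →
        ∃ E : Set (Fin d → ℝ), μH[((d : ℝ) + 1) / (1 + τ)] E = 0 ∧ (1 ≤ d * τ → volume E = 0) ∧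
          ∀ α, α ∉ E → ∀ (s : ℕ) (f : MvPolynomial (Fin s) ℤ), 2 ≤ f.totalDegree → ∀ c : Fin r → ℤ, (∀ i, c i ≠ 0) →
            ∀ T : Finset Nat.Primes, T₀ s f c ⊆ T → ∀ N : ℕ,
              Near τ γ α (fun k => RealCond K f c k → Approximation K f c T N k) := by
  classical
  have h0 : ∀ (s : ℕ) (f : MvPolynomial (Fin s) ℤ) (c : Fin r → ℤ), ∃ T₀ : Finset Nat.Primes,
      2 ≤ f.totalDegree → (∀ i, c i ≠ 0) → ∀ T : Finset Nat.Primes, T₀ ⊆ T → ∀ N U : ℕ, ∃ X₀ : ℕ, ∀ X : ℕ, X₀ ≤ X →
      (#{k ∈ Icc (-(X : ℤ)) X | ¬ (RealCond K f c k → Approximation K f c T N k)} : ℝ) ≤ X / Real.log X ^ U := by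
    intro s f c
    by_cases hc : 2 ≤ f.totalDegree ∧ ∀ i, c i ≠ 0
    · obtain ⟨T₀, h⟩ := AbelianNormForms.result m K hK f hc.1 c hc.2
      exact ⟨T₀, fun _ _ T hT N U => by
        obtain ⟨X₀, h⟩ := h T hT N U
        refine ⟨X₀, fun X hX => ?_⟩
        convert h X hX using 3⟩
    · exact ⟨∅, fun h1 h2 => absurd ⟨h1, h2⟩ hc⟩
  choose T₀ hT₀ using h0
  refine ⟨T₀, fun d τ γ hτ => ?_⟩
  have := countable_data r
  obtain ⟨E, e1, e2, e3⟩ := Pool.Agent.U513.AP.near_int
    (fun (i : Data r) (k : ℤ) => 2 ≤ i.2.1.totalDegree → (∀ j, i.2.2.1 j ≠ 0) → T₀ i.1 i.2.1 i.2.2.1 ⊆ i.2.2.2.1 →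
      RealCond K i.2.1 i.2.2.1 k → Approximation K i.2.1 i.2.2.1 i.2.2.2.1 i.2.2.2.2 k) (by
    rintro ⟨s, f, c, T, N⟩
    by_cases hc : 2 ≤ f.totalDegree ∧ (∀ j, c j ≠ 0) ∧ T₀ s f c ⊆ T
    · intro U
      obtain ⟨X₀, h⟩ := hT₀ s f c hc.1 hc.2.1 T hc.2.2 N U
      refine ⟨X₀, fun X hX => le_trans (Nat.cast_le.2 ?_) (h X hX)⟩
      rw [← Set.ncard_coe_finset]
      refine Set.ncard_le_ncard ?_ (Finset.finite_toSet _)
      rintro k ⟨hk1, hk2⟩
      rw [mem_coe, mem_filter, mem_Icc]
      exact ⟨abs_le.1 hk1, fun hcon => hk2 fun _ _ _ => hcon⟩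
    · exact Pool.Agent.U513.AP.FewInt.of_true fun k h1 h2 h3 => absurd ⟨h1, h2, h3⟩ hc) hτ γ
  refine ⟨E, e1, e2, fun α hα s f hf c hc T hT N W g₀ g h hgh => ?_⟩
  filter_upwards [e3 α hα ⟨s, f, c, T, N⟩ W g₀ g h hgh] with q hq u hu k hk hle
  exact hq u hu k hk hle hf hc hT

end Pool.Agent.Results.MP_12adaf_nt.Approximations
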