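import Pool.Agent.U449.BV.O
import Pool.Agent.Results.MP_12adaf_nt.AbelianNormForms

/-!
# Norm forms of abelian fields: approximation near the values of polynomials on arbitrary dense sets

Let `p` be a prime and `f(x, y)` ANY polynomial modulo `p` of degree at most `d` with a monomial which contains both variables (for
example `f = x y`), let `A`, `B` be ARBITRARY sets of residues modulo `p`, `g`, `h` ARBITRARY functions, and `1 ≤ W ≤ p`.
For all but `Θ |A| |B|` of the pairs `(a, b)` in `A × B`, where `Θ ^ 2 = C d e(p) (p / |A| + W p / |B|)`, `e(X) = 1 / (1 + log X) ^ U`, `U` arbitrary,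
ALL integers `k` with `|k|` at a distance of at most `W` from the least residue of `f(a, b) + g(a) + h(b)` are such that the local
points of `N_{Kᵢ/ℚ}(zᵢ) = cᵢ (F(t) + k)` are approximated by rational points, under the condition at the real place.
So this holds for almost all pairs if `A`, `B` are dense and `W` is small in the same sense as the set of the exceptions is sparse.
More generally, this holds for all functions `F(a, b)` with few coincidences (`Rare`).

Since the sets and the functions `g` and `h` are arbitrary, the values have no arithmetic structure, and a value may be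
taken by very many pairs. So the number of the exceptions (starting library) does not give the result directly. Proof: the
inequality of Cauchy and Schwarz; for most pairs `a, a'` the difference `F(a, b) - F(a', b)` is small for few `b`
(`Pool.Agent.U449.BV`).
-/

set_option autoImplicit false

namespace Pool.Agent.Results.MP_12adaf_nt.MixedOnDenseSets

open Pool.Agent.U449.BV (Rare OnDense on_dense_int_pow residues)
open Pool.Agent.Results.MP_12adaf_nt.AbelianNormForms (Admissible Approximation RealCond)

variable {L : Type} [Field L] [NumberField L] {r n : ℕ}

/-- For ALL integers `k` with `||k| - v| ≤ W` which satisfy the condition at the real place (`RealCond`) the local points of `V_k`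
at the primes of `T` are approximated by rational points of `V_k`. -/
def Near (K : Fin r → IntermediateField ℚ L) (F : MvPolynomial (Fin n) ℤ) (c : Fin r → ℤ) (T : Finset Nat.Primes) (N : ℕ)
    (W v : ℝ) : Prop :=
  ∀ k : ℤ, |(|k| : ℝ) - v| ≤ W → RealCond K F c k → Approximation K F c T N k

/-- **Theorem.** Let `F` be an integral polynomial of degree at least `2`, `cᵢ` nonzero integers, and let the `Kᵢ` be abelian number fields
(subfields of the `m`-th cyclotomic field `L`) which are `Admissible`. There is `T₀` such that for all finite sets `T ⊇ T₀` of
primes, all `N` and `U` the property `Near K F c T N` holds for almost all values of functions of two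
variables with few coincidences on arbitrary dense sets, with the density `1 / (1 + log X) ^ U` of exceptions (`OnDense`).
The least residues modulo `p` of `f(a, b) + g(a) + h(b)` are such a function, bounded by `X = p`, for all primes `p`, all
polynomials `f` modulo `p` with a monomial which contains both variables, arbitrary functions `g` and `h`, and arbitrary sets of
residues. -/
theorem result (m : ℕ) [NeZero m] [IsCyclotomicExtension {m} ℚ L] (K : Fin r → IntermediateField ℚ L)
    (hK : ∀ i, Admissible (K i)) (F : MvPolynomial (Fin n) ℤ) (hF : 2 ≤ F.totalDegree) (c : Fin r → ℤ) (hc : ∀ i, c i ≠ 0) :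
    (∃ T₀ : Finset Nat.Primes, ∀ T : Finset Nat.Primes, T₀ ⊆ T → ∀ N U : ℕ,
        OnDense (fun X => 1 / (1 + Real.log X) ^ U) (Near K F c T N)) ∧
    ∀ (p : ℕ) [Fact p.Prime] (d : ℕ) (f : MvPolynomial (Fin 2) (ZMod p)), f.totalDegree ≤ d →
      (∃ m ∈ f.support, m 0 ≠ 0 ∧ m 1 ≠ 0) → ∀ (g h : ZMod p → ZMod p) (A B : Finset (ZMod p)),
        Rare d A B (fun a b => (((MvPolynomial.eval ![a, b] f + g a + h b).val : ℕ) : ℝ)) := by
  classical
  refine ⟨?_, residues⟩
  obtain ⟨T₀, h⟩ := AbelianNormForms.result m K hK F hF c hc
  refine ⟨T₀, fun T hT N U => ?_⟩
  obtain ⟨X₀, h⟩ := h T hT N U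
  refine on_dense_int_pow (Good := fun k => RealCond K F c k → Approximation K F c T N k) (U := U) ⟨X₀, fun x hx => ?_⟩
  refine le_of_eq_of_le ?_ (h x hx)
  congr 2 <;> (ext k; simp only [Finset.mem_filter])

end Pool.Agent.Results.MP_12adaf_nt.MixedOnDenseSets
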