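import Pool.Agent.U637.NR.G9

/-!
# MP_12adaf_nt: rational points of almost all `N_{K/ℚ}(z) = c (f(t) + k)`, for every number field `K`

Let `K` be ANY number field: no hypothesis on the degree, on the Galois group, on the class group or on the
units, and the Hasse norm principle may fail for `K`. Let `f` be any integral polynomial of degree at least
`2` and `c ≠ 0` an integer; only the constant term `k` varies. The variety
`V_k : N_{K/ℚ}(z) = c (f(t) + k) ≠ 0` is smooth and geometrically rational, so its smooth projective models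
are geometrically rationally connected. For almost all `k` (all but `ε X ^ d` of those with
`|k| ≤ B X ^ d`, `d = deg f`) the variety satisfies the Hasse principle, and weak approximation at finite
sets `T` of primes: for all families of points over all the `ℚ_p` and over `ℝ` there is a rational point
which is near to the given points at `T`, in all coordinates `(t, z)`, and whose `z` has the signs of the
given real point at all real embeddings of `K`. (For `T = ∅` this is the Hasse principle.)

Proof. (i) Choose an integer `z₀` of `K` near to the given `z_p` and with the signs of the given real point,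
a modulus `m` which is a product of high powers of the primes of `T` and of the primes which ramify, and an
ideal `μ` which contains the part of `z₀` prime to `m`. (ii) Let `C` be the narrow ray class modulo `m` of
the principal ideal of `z₀`, divided by its part dividing a power of `m`. For almost all `k` there is an
integer `t`, near to the given `t_p`, such that `c (f(t) + k)` is, up to the primes of `T`, a prime number
`p` which is the norm of a prime ideal of the class `C` (`NR/G0`; the prime ideal theorem for narrow ray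
classes on average over `k`, `NR/A1`-`NR/A5`; the main terms are positive since totally positive integers
`≡ 1` mod `m` of `K` have norms in all residue classes of units near to `1`). (iii) The quotient of this ideal
and the ideal of `z₀` is generated by a totally positive element which is `≡ 1` mod `m`: multiplied by it,
`z₀` has the norm `c (f(t) + k)` and is still near to all the `z_p` (`NR/G1`, `NR/G2`).
-/

set_option autoImplicit false

namespace Pool.Agent.Results.MP_12adaf_nt.NormFormsOfEveryField

open Finset Polynomial NumberField Module TensorProduct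

instance (p : Nat.Primes) : Fact (p : ℕ).Prime := ⟨p.2⟩

variable (K : Type) [Field K] [NumberField K]

/-- The point `(t, z)` with coordinates in the field `F` lies on `V_k : N_{K/ℚ}(z) = c (f(t) + k) ≠ 0`.
The coordinate `z` is an element of `F ⊗ K`. -/
def OnV (f : ℤ[X]) (c k : ℤ) {F : Type} [Field F] [Algebra ℚ F] (t : F) (z : F ⊗[ℚ] K) : Prop :=
  aeval t f + (k : F) ≠ 0 ∧ Algebra.norm F z = (c : F) * (aeval t f + (k : F))

variable {K} in
/-- The coordinates of an element of `F ⊗ K`, with respect to an integral basis of `K`. -/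
noncomputable def coord {F : Type} [Field F] [Algebra ℚ F] (z : F ⊗[ℚ] K)
    (j : Free.ChooseBasisIndex ℤ (𝓞 K)) : F :=
  (Algebra.TensorProduct.basis F (integralBasis K)).repr z j

variable {K} in
/-- The value in `ℝ` of an element of `ℝ ⊗ K` at a real embedding of `K`: `a ⊗ y` has the value
`a σ(y)`. -/
noncomputable def value (σ : K →+* ℝ) : ℝ ⊗[ℚ] K →ₐ[ℝ] ℝ :=
  Algebra.TensorProduct.lift (AlgHom.id ℝ ℝ) (RingHom.equivRatAlgHom K ℝ σ) (fun _ _ => Commute.all _ _)

/-- The Hasse principle and weak approximation for `V_k`, of level `N` at the primes of `T`. For all families of points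
`(t_p, z_p)` of `V_k` over all the `ℚ_p` and `(tr, zr)` over `ℝ` (where for `p` in `T` the coordinates of
`(t_p, z_p)` have absolute value at most `p ^ N` and `|f(t_p) + k| ≥ p ^ (-N)`) there is a rational point
`(q, y)` of `V_k`, whose coordinates are within `p ^ (-N)` of those of `(t_p, z_p)` for all `p` in `T`, and
for which `y` has the same sign as `zr` at all real embeddings of `K`. -/
def WeakApproximation (f : ℤ[X]) (c : ℤ) (T : Finset Nat.Primes) (N : ℕ) (k : ℤ) : Prop :=
  ∀ (t : (p : Nat.Primes) → ℚ_[(p : ℕ)]) (z : (p : Nat.Primes) → ℚ_[(p : ℕ)] ⊗[ℚ] K) (tr : ℝ)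
    (zr : ℝ ⊗[ℚ] K), (∀ p, OnV K f c k (t p) (z p)) → OnV K f c k tr zr →
    (∀ p ∈ T, ‖t p‖ ≤ ((p : ℕ) : ℝ) ^ N ∧ (∀ j, ‖coord (z p) j‖ ≤ ((p : ℕ) : ℝ) ^ N) ∧
      (((p : ℕ) : ℝ) ^ N)⁻¹ ≤ ‖aeval (t p) f + (k : ℚ_[(p : ℕ)])‖) →
    ∃ (q : ℚ) (y : K), aeval q f + (k : ℚ) ≠ 0 ∧ Algebra.norm ℚ y = (c : ℚ) * (aeval q f + (k : ℚ)) ∧
      (∀ σ : K →+* ℝ, 0 < σ y ↔ 0 < value σ zr) ∧
      ∀ p ∈ T, ‖(q : ℚ_[(p : ℕ)]) - t p‖ ≤ (((p : ℕ) : ℝ) ^ N)⁻¹ ∧
        ∀ j, ‖(((integralBasis K).repr y j : ℚ) : ℚ_[(p : ℕ)]) - coord (z p) j‖ ≤ (((p : ℕ) : ℝ) ^ N)⁻¹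

open Classical in
/-- For every number field `K`, every polynomial `f` of degree `d ≥ 2` and all `c`, `T`, `N`, `B` and
`ε > 0`: if `X` is large, then all but at most `ε X ^ d` of the `V_k` with `|k| ≤ B X ^ d` satisfy the Hasse
principle and weak approximation of level `N` at `T`. -/
theorem result (f : ℤ[X]) (hf : 2 ≤ f.natDegree) (c : ℤ) (hc : c ≠ 0) (T : Finset Nat.Primes)
    (N B : ℕ) (hB : 1 ≤ B) (ε : ℝ) (hε : 0 < ε) :
    ∃ X₀ : ℕ, ∀ X : ℕ, X₀ ≤ X →
      (#{k ∈ Icc (-((B * X ^ f.natDegree : ℕ) : ℤ)) ((B * X ^ f.natDegree : ℕ) : ℤ) |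
        ¬ WeakApproximation K f c T N k} : ℝ) ≤ ε * (X : ℝ) ^ f.natDegree := by
  obtain ⟨X0, h⟩ := Pool.Agent.U637.NR.wa_all (K := K) f hf c hc T N B hB ε hε
  refine ⟨X0, fun X hX => ?_⟩
  obtain ⟨Bad, hB1, hB2⟩ := h X hX
  have hsub : {k ∈ Icc (-((B * X ^ f.natDegree : ℕ) : ℤ)) ((B * X ^ f.natDegree : ℕ) : ℤ) |
      ¬ WeakApproximation K f c T N k} ⊆ Bad := by
    intro k hk
    rw [mem_filter] at hk
    obtain ⟨hk1, hk2⟩ := hk
    by_contra hkB
    apply hk2
    intro t z tr zr hV hr hT
    obtain ⟨q, y, h1, h2, h3, h4⟩ := hB2 k (abs_le.2 (mem_Icc.1 hk1)) hkB t z tr zr hV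
      (fun p hp => ⟨hV p, hT p hp⟩) hr
    exact ⟨q, y, h1, h2, h3, h4⟩
  have h2 : (#{k ∈ Icc (-((B * X ^ f.natDegree : ℕ) : ℤ)) ((B * X ^ f.natDegree : ℕ) : ℤ) |
      ¬ WeakApproximation K f c T N k} : ℝ) ≤ #Bad := by
    exact_mod_cast card_le_card hsub
  exact h2.trans hB1

end Pool.Agent.Results.MP_12adaf_nt.NormFormsOfEveryField
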